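import Pool.Agent.Q93.CV.Prob

/-!
# MP_bb5cc8: covering by one residue class per prime: definitions and proofs

`S α N a` is the number of the `n` in `{1, …, N}` which are covered by the choice `a` of one residue
class modulo every prime in `[N^α, 2N^α)`. Number of the bad choices, random choices, category.
-/

set_option autoImplicit false

namespace Pool.Agent.Q93.CB

open Finset Filter MeasureTheory ProbabilityTheory
open Pool.Agent.Results.MP_bb5cc8_nt.SumsDifferences (window)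

/-- a choice of residues: one class modulo every prime in `[N^α, 2N^α)` -/
abbrev Choice (α : ℝ) (N : ℕ) : Type := ∀ p : {p : ℕ // p ∈ window α N}, ZMod p

open Classical in
/-- the set of the covered integers -/
noncomputable def cov (α : ℝ) (N : ℕ) (a : Choice α N) : Finset ℕ :=
  (Icc 1 N).filter fun n : ℕ => ∃ p : {p : ℕ // p ∈ window α N}, (n : ZMod p) = a p

/-- `S_a(N)` -/
noncomputable def S (α : ℝ) (N : ℕ) (a : Choice α N) : ℕ := (cov α N a).card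

/-- the lower bound `N^(1-o(1))` holds for the exponent `α` -/
def Bound (α : ℝ) : Prop := ∀ ε : ℝ, 0 < ε → ∃ N₀ : ℕ, ∀ N : ℕ, N₀ ≤ N → ∀ a : Choice α N,
  (N : ℝ) ^ (1 - ε) ≤ S α N a

/-- Q1 -/
def Q1 : Prop := ∀ α : ℝ, 1 / 2 < α → α < 1 → Bound α

/-- a fixed system: one class modulo every prime -/
abbrev System : Type := ∀ p : Nat.Primes, ZMod p

lemma prime_of_mem {α : ℝ} {N p : ℕ} (h : p ∈ window α N) : p.Prime := by
  classical
  unfold window at h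
  exact (mem_filter.1 h).2.1

/-- the choice given by a fixed system -/
def res (α : ℝ) (N : ℕ) (a : System) : Choice α N := fun p => a ⟨p, prime_of_mem p.2⟩

/-- the bound with the exponent `1 - ε` holds along the choices `a N` for all large `N` -/
def Eventually (α ε : ℝ) (a : ∀ N : ℕ, System) : Prop :=
  ∃ N₀ : ℕ, ∀ N : ℕ, N₀ ≤ N → (N : ℝ) ^ (1 - ε) ≤ S α N (res α N (a N))

/-- the lower bound `N^(1-o(1))` holds for `α` along the fixed system `a` -/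
def Along (α : ℝ) (a : System) : Prop := ∀ ε : ℝ, 0 < ε → Eventually α ε fun _ => a

instance (α : ℝ) (N : ℕ) (p : {p : ℕ // p ∈ window α N}) : NeZero (p : ℕ) :=
  ⟨(prime_of_mem p.2).ne_zero⟩

lemma mem_window {α : ℝ} {N p : ℕ} (h : p ∈ window α N) :
    (N : ℝ) ^ α ≤ p ∧ (p : ℝ) < 2 * (N : ℝ) ^ α := by
  classical
  unfold window at h
  rw [mem_filter, mem_range, Nat.lt_ceil] at h
  exact ⟨h.2.2, h.1⟩

lemma cov_eq (α : ℝ) (N : ℕ) (a : Choice α N) : cov α N a =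
    Pool.Agent.Q93.CV.un (fun (i : {p // p ∈ window α N}) (r : ZMod i) =>
      Pool.Agent.Q93.CV.cls N i r) a univ := by
  classical
  ext n
  unfold cov Pool.Agent.Q93.CV.un Pool.Agent.Q93.CV.cls
  simp only [mem_filter, mem_biUnion, mem_univ, true_and]
  constructor
  · rintro ⟨hn, p, h⟩; exact ⟨p, hn, h⟩
  · rintro ⟨p, hn, h⟩; exact ⟨hn, p, h⟩

/-- counting -/
theorem counting (α ε δ : ℝ) (hα : 1 / 2 ≤ α) (hα1 : α < 1) (hε : 0 < ε) (hδ : 0 < δ) :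
    ∃ N₀ : ℕ, ∀ N : ℕ, N₀ ≤ N →
      (Nat.card {a : Choice α N // (S α N a : ℝ) < (N : ℝ) ^ (1 - ε)} : ℝ) ≤
        (Nat.card (Choice α N) : ℝ) ^ (1 - 2 * ε / α + δ) := by
  classical
  obtain ⟨N₁, hN₁⟩ := eventually_atTop.1
    (Pool.Agent.Q93.CV.count_bound (1 / 4) α ε δ (by norm_num) hα hα1 hε hδ)
  obtain ⟨N₂, hN₂⟩ := Pool.Agent.Results.MP_bb5cc8_nt.SumsDifferences.window_card α hα hα1
  refine ⟨N₁ + N₂, fun N hN => ?_⟩
  have h := hN₁ N (by omega) (window α N) (fun p hp => prime_of_mem hp) (fun p hp => mem_window hp)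
    (by
      refine le_trans (le_of_eq ?_) (hN₂ N (by omega))
      ring)
  have e1 : (Nat.card (Choice α N) : ℝ) = ∏ p ∈ window α N, (p : ℝ) := by
    rw [Nat.card_pi]
    push_cast
    rw [← prod_coe_sort (window α N) (fun p => (p : ℝ))]
    refine prod_congr rfl fun p _ => ?_
    rw [Nat.card_zmod]
  have e2 : Nat.card {a : Choice α N // (S α N a : ℝ) < (N : ℝ) ^ (1 - ε)} =
      (univ.filter (fun a : Choice α N => ((Pool.Agent.Q93.CV.un
        (fun (i : {p // p ∈ window α N}) (r : ZMod i) => Pool.Agent.Q93.CV.cls N i r)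
          a univ).card : ℝ) < (N : ℝ) ^ (1 - ε))).card := by
    rw [Nat.card_eq_fintype_card, Fintype.card_subtype]
    congr 1
    refine filter_congr fun a _ => ?_
    unfold S
    rw [cov_eq]
  rw [e1, e2]
  exact h

/-- the primes of `(x, 2x]`, `x = ⌊N^α⌋`, belong to the window -/
lemma G_sub (α : ℝ) (N : ℕ) (a : System) (hN : 2 ≤ (N : ℝ) ^ α) :
    Pool.Agent.Q93.CV.G N ⌊(N : ℝ) ^ α⌋₊ a ⊆ cov α N (res α N a) := by
  classical
  intro n hn
  unfold Pool.Agent.Q93.CV.G at hn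
  rw [mem_filter] at hn
  obtain ⟨hn1, p, hp1, hp2, hp3⟩ := hn
  obtain ⟨x, hx⟩ : ∃ x, x = ⌊(N : ℝ) ^ α⌋₊ := ⟨_, rfl⟩
  rw [← hx] at hp1 hp2
  have hx1 : (x : ℝ) ≤ (N : ℝ) ^ α := by rw [hx]; exact Nat.floor_le (by linarith)
  have hx2 : (N : ℝ) ^ α < x + 1 := by rw [hx]; exact Nat.lt_floor_add_one _
  have hx3 : 2 ≤ x := by rw [hx]; exact Nat.le_floor (by exact_mod_cast hN)
  have hpw : (p : ℕ) ∈ window α N := by
    unfold window
    rw [mem_filter, mem_range, Nat.lt_ceil]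
    have hne : (p : ℕ) ≠ x + x := by
      intro h
      have h3 : 2 ∣ (p : ℕ) := ⟨x, by omega⟩
      have := (Nat.prime_dvd_prime_iff_eq Nat.prime_two p.2).1 h3
      omega
    have h1 : ((p : ℕ) : ℝ) + 1 ≤ x + x := by exact_mod_cast (by omega : (p : ℕ) + 1 ≤ x + x)
    have h2 : (x : ℝ) + 1 ≤ (p : ℕ) := by exact_mod_cast hp1
    exact ⟨by linarith, p.2, by linarith⟩
  unfold cov
  rw [mem_filter]
  exact ⟨hn1, ⟨p, hpw⟩, hp3⟩

/-- random choices -/
theorem random {Ω : Type} [MeasurableSpace Ω] (μ : Measure Ω) [IsProbabilityMeasure μ]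
    (K h : ℝ) (h0 : 0 ≤ h) (h1 : h ≤ 1) (ξ : ∀ (N : ℕ) (p : Nat.Primes), Ω → ZMod p)
    (hm : ∀ N p, Measurable (ξ N p)) (hind : ∀ N, iIndepFun (ξ N) μ)
    (hK : ∀ (N : ℕ) (p : Nat.Primes) (r : ZMod p), μ.real {ω | ξ N p ω = r} ≤
      K * ((p : ℕ) : ℝ) ^ (-h)) :
    ∀ᵐ ω ∂μ, ∀ α ε : ℝ, 1 / 2 ≤ α → α < 1 → α * (1 - h) / 2 < ε →
      Eventually α ε fun N p => ξ N p ω := by
  have hcount : ∀ k : ℕ, ∀ᵐ ω ∂μ, ∀ᶠ N : ℕ in atTop, ∀ x : ℕ, (N : ℝ) ≤ ((x : ℝ) + 1) ^ 2 →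
      (x : ℝ) + 1 ≤ (N : ℝ) ^ (1 - 1 / ((k : ℝ) + 1)) →
      (N : ℝ) ^ (1 - 1 / ((k : ℝ) + 1)) * ((x : ℝ) + 1) ^ (-((1 - h) / 2)) ≤
        ((Pool.Agent.Q93.CV.G N x fun p => ξ N p ω).card : ℝ) := by
    intro k
    refine Pool.Agent.Q93.CV.as_bound μ (max K 1) h (by positivity) h0 h1 ξ hm hind
      (fun N p r => (hK N p r).trans ?_) _ _ (by positivity) ?_ (by positivity)
    · exact mul_le_mul_of_nonneg_right (le_max_left _ _) (by positivity)
    · rw [div_le_one (by positivity)]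
      have : (0 : ℝ) ≤ k := Nat.cast_nonneg k
      linarith
  filter_upwards [ae_all_iff.2 hcount] with ω hω α ε hα hα1 hε
  obtain ⟨τ, hτ⟩ : ∃ τ, τ = min ((ε - α * (1 - h) / 2) / 2) ((1 - α) / 2) := ⟨_, rfl⟩
  have hτ0 : 0 < τ := by rw [hτ]; exact lt_min (by linarith) (by linarith)
  obtain ⟨k, hk⟩ := exists_nat_one_div_lt hτ0
  have hk1 : 1 / ((k : ℝ) + 1) < (ε - α * (1 - h) / 2) / 2 :=
    hk.trans_le (by rw [hτ]; exact min_le_left _ _)
  have hk2 : 1 / ((k : ℝ) + 1) < (1 - α) / 2 := hk.trans_le (by rw [hτ]; exact min_le_right _ _)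
  obtain ⟨η, hη⟩ : ∃ η, η = 1 / ((k : ℝ) + 1) := ⟨_, rfl⟩
  have hη0 : 0 < η := by rw [hη]; positivity
  have H := hω k
  rw [← hη] at hk1 hk2 H
  have g1 := ((tendsto_rpow_atTop (show 0 < (1 - α) / 2 by linarith)).comp
    tendsto_natCast_atTop_atTop).eventually_ge_atTop (2 : ℝ)
  have g2 := ((tendsto_rpow_atTop (show 0 < α by linarith)).comp
    tendsto_natCast_atTop_atTop).eventually_ge_atTop (2 : ℝ)
  have g3 := ((tendsto_rpow_atTop (show 0 < (ε - α * (1 - h) / 2) / 2 by linarith)).comp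
    tendsto_natCast_atTop_atTop).eventually_ge_atTop (2 : ℝ)
  obtain ⟨N₀, hN₀⟩ := eventually_atTop.1 (H.and (g1.and (g2.and (g3.and (eventually_ge_atTop 2)))))
  refine ⟨N₀, fun N hN => ?_⟩
  obtain ⟨HN, f1, f2, f3, f4⟩ := hN₀ N hN
  simp only [Function.comp_apply] at f1 f2 f3
  have hN1 : (1 : ℝ) ≤ N := by exact_mod_cast (by omega : 1 ≤ N)
  have hN0 : (0 : ℝ) < N := by linarith
  obtain ⟨x, hx⟩ : ∃ x, x = ⌊(N : ℝ) ^ α⌋₊ := ⟨_, rfl⟩
  have hx1 : (x : ℝ) ≤ (N : ℝ) ^ α := by rw [hx]; exact Nat.floor_le (by linarith)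
  have hx2 : (N : ℝ) ^ α < x + 1 := by rw [hx]; exact Nat.lt_floor_add_one _
  have hx3 : (x : ℝ) + 1 ≤ 2 * (N : ℝ) ^ α := by linarith
  have c1 : (N : ℝ) ≤ ((x : ℝ) + 1) ^ 2 := by
    calc (N : ℝ) = (N : ℝ) ^ (1 : ℝ) := (Real.rpow_one _).symm
      _ ≤ (N : ℝ) ^ (α * 2) := Real.rpow_le_rpow_of_exponent_le hN1 (by linarith)
      _ = ((N : ℝ) ^ α) ^ 2 := by rw [Real.rpow_mul hN0.le]; norm_cast
      _ ≤ _ := pow_le_pow_left₀ (by positivity) hx2.le 2
  have c2 : (x : ℝ) + 1 ≤ (N : ℝ) ^ (1 - η) := by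
    calc (x : ℝ) + 1 ≤ 2 * (N : ℝ) ^ α := hx3
      _ ≤ (N : ℝ) ^ ((1 - α) / 2) * (N : ℝ) ^ α := mul_le_mul_of_nonneg_right f1 (by positivity)
      _ = (N : ℝ) ^ ((1 - α) / 2 + α) := by rw [← Real.rpow_add hN0]
      _ ≤ _ := Real.rpow_le_rpow_of_exponent_le hN1 (by linarith)
  have h2 := HN x c1 c2
  have h3 : ((Pool.Agent.Q93.CV.G N x fun p => ξ N p ω).card : ℝ) ≤
      S α N (res α N fun p => ξ N p ω) := by
    unfold S
    rw [hx]
    exact_mod_cast card_le_card (G_sub α N (fun p => ξ N p ω) f2)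
  refine le_trans ?_ (h2.trans h3)
  have h4 : (2 * (N : ℝ) ^ α) ^ (-((1 - h) / 2)) ≤ ((x : ℝ) + 1) ^ (-((1 - h) / 2)) :=
    Real.rpow_le_rpow_of_nonpos (by positivity) hx3 (by linarith)
  have h5 : (2 : ℝ)⁻¹ * (N : ℝ) ^ (-(α * (1 - h) / 2)) ≤ (2 * (N : ℝ) ^ α) ^ (-((1 - h) / 2)) := by
    rw [Real.mul_rpow (by norm_num) (by positivity), ← Real.rpow_mul hN0.le]
    have e1 : α * -((1 - h) / 2) = -(α * (1 - h) / 2) := by ring
    rw [e1]
    apply mul_le_mul_of_nonneg_right _ (by positivity)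
    rw [← Real.rpow_neg_one]
    exact Real.rpow_le_rpow_of_exponent_le (by norm_num) (by linarith)
  have h6 : (2 : ℝ) * (N : ℝ) ^ (1 - ε) ≤ (N : ℝ) ^ (1 - η) * (N : ℝ) ^ (-(α * (1 - h) / 2)) := by
    calc (2 : ℝ) * (N : ℝ) ^ (1 - ε) ≤ (N : ℝ) ^ ((ε - α * (1 - h) / 2) / 2) * (N : ℝ) ^ (1 - ε) :=
          mul_le_mul_of_nonneg_right f3 (by positivity)
      _ = (N : ℝ) ^ ((ε - α * (1 - h) / 2) / 2 + (1 - ε)) := by rw [← Real.rpow_add hN0]
      _ ≤ (N : ℝ) ^ (1 - η + -(α * (1 - h) / 2)) :=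
          Real.rpow_le_rpow_of_exponent_le hN1 (by linarith)
      _ = _ := by rw [Real.rpow_add hN0]
  calc (N : ℝ) ^ (1 - ε) ≤ (2 : ℝ)⁻¹ * ((N : ℝ) ^ (1 - η) * (N : ℝ) ^ (-(α * (1 - h) / 2))) := by
        rw [le_inv_mul_iff₀ (by norm_num)]
        exact h6
    _ = (N : ℝ) ^ (1 - η) * ((2 : ℝ)⁻¹ * (N : ℝ) ^ (-(α * (1 - h) / 2))) := by ring
    _ ≤ (N : ℝ) ^ (1 - η) * ((x : ℝ) + 1) ^ (-((1 - h) / 2)) :=
        mul_le_mul_of_nonneg_left (h5.trans h4) (by positivity)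

/-! ### category -/

/-- the systems with the bound for all `N ≥ M` -/
def F (α ε : ℝ) (M : ℕ) : Set System :=
  {a | ∀ N : ℕ, M ≤ N → (N : ℝ) ^ (1 - ε) ≤ S α N (res α N a)}

lemma isClosed_F (α ε : ℝ) (M : ℕ) : IsClosed (F α ε M) := by
  have e : F α ε M = ⋂ N : ℕ, ⋂ _ : M ≤ N,
      (res α N) ⁻¹' {b : Choice α N | (N : ℝ) ^ (1 - ε) ≤ S α N b} := by
    ext a
    simp [F]
  rw [e]
  refine isClosed_iInter fun N => isClosed_iInter fun _ => ?_
  refine IsClosed.preimage ?_ (isClosed_discrete _)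
  exact continuous_pi fun p => continuous_apply _

lemma interior_F (α ε : ℝ) (hα : 0 < α) (M : ℕ) (h : (interior (F α ε M)).Nonempty) :
    ∃ N₀ : ℕ, ∀ N : ℕ, N₀ ≤ N → ∀ a : Choice α N, (N : ℝ) ^ (1 - ε) ≤ S α N a := by
  classical
  obtain ⟨b, hb⟩ := h
  obtain ⟨I, u, hu, hsub⟩ := isOpen_pi_iff.1 isOpen_interior b hb
  obtain ⟨J, hJ⟩ : ∃ J : ℕ, ∀ p ∈ I, (p : ℕ) < J := by
    refine ⟨I.sup (fun p => (p : ℕ)) + 1, fun p hp => Nat.lt_succ_of_le ?_⟩
    exact le_sup (f := fun p : Nat.Primes => (p : ℕ)) hp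
  have g := ((tendsto_rpow_atTop hα).comp tendsto_natCast_atTop_atTop).eventually_ge_atTop (J : ℝ)
  obtain ⟨N₁, hN₁⟩ := eventually_atTop.1 g
  refine ⟨N₁ + M, fun N hN a => ?_⟩
  obtain ⟨a', ha'⟩ : ∃ a' : System, a' = fun p : Nat.Primes =>
      if hp : (p : ℕ) ∈ window α N then a ⟨p, hp⟩ else b p := ⟨_, rfl⟩
  have hmem : a' ∈ F α ε M := by
    apply interior_subset
    apply hsub
    intro p hp
    have h1 : ((p : ℕ) : ℝ) < J := by exact_mod_cast hJ p (by exact_mod_cast hp)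
    have h2 := hN₁ N (by omega)
    simp only [Function.comp_apply] at h2
    have h3 : (p : ℕ) ∉ window α N := fun h => by
      have := (mem_window h).1
      linarith
    rw [ha']
    simp only
    rw [dif_neg h3]
    exact (hu p (by exact_mod_cast hp)).2
  have h1 := hmem N (by omega)
  have h2 : res α N a' = a := by
    funext p
    unfold res
    rw [ha']
    simp only
    rw [dif_pos p.2]
  rwa [h2] at h1

lemma meagre_of_not (α : ℝ) (hα : 0 < α) (h : ¬ Bound α) : IsMeagre {a | Along α a} := by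
  unfold Bound at h
  push Not at h
  obtain ⟨ε, hε, h⟩ := h
  have hsub : {a | Along α a} ⊆ ⋃ M : ℕ, F α ε M := by
    intro a ha
    obtain ⟨M, hM⟩ := ha ε hε
    exact Set.mem_iUnion.2 ⟨M, hM⟩
  refine IsMeagre.mono hsub (isMeagre_iUnion fun M => IsNowhereDense.isMeagre ?_)
  rw [IsNowhereDense, (isClosed_F α ε M).closure_eq]
  by_contra hne
  obtain ⟨N₀, hN₀⟩ := interior_F α ε hα M (Set.nonempty_iff_ne_empty.2 hne)
  obtain ⟨N, hN, a, ha⟩ := h N₀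
  exact absurd (hN₀ N hN a) (not_le.2 ha)

lemma along_of_bound (α : ℝ) (h : Bound α) (a : System) : Along α a := by
  intro ε hε
  obtain ⟨N₀, hN₀⟩ := h ε hε
  exact ⟨N₀, fun N hN => hN₀ N hN _⟩

lemma univ_not_meagre {P : System → Prop} (h : ∀ a, P a) : ¬ IsMeagre {a | P a} := by
  have e : {a : System | P a} = Set.univ := by
    ext a; simp [h a]
  rw [e]
  have : ∀ p : Nat.Primes, NeZero (p : ℕ) := fun p => ⟨p.2.ne_zero⟩
  exact not_isMeagre_of_isOpen isOpen_univ Set.univ_nonempty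

/-- the bound for one `α`: fixed systems and category -/
theorem category (α : ℝ) (hα : 0 < α) :
    (Bound α ↔ ∀ a, Along α a) ∧ (Bound α ↔ ¬ IsMeagre {a | Along α a}) := by
  have h1 : ¬ IsMeagre {a | Along α a} → Bound α := fun h => by
    by_contra hn
    exact h (meagre_of_not α hα hn)
  exact ⟨⟨along_of_bound α, fun h => h1 (univ_not_meagre h)⟩,
    ⟨fun h => univ_not_meagre (along_of_bound α h), h1⟩⟩

/-- Q1 and category -/
theorem categoryQ1 : Q1 ↔ ¬ IsMeagre {a | ∀ α : ℝ, 1 / 2 < α → α < 1 → Along α a} := by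
  refine ⟨fun h => univ_not_meagre fun a α h1 h2 => along_of_bound α (h α h1 h2) a,
    fun h α h1 h2 => ?_⟩
  by_contra hn
  exact h (IsMeagre.mono (fun a ha => ha α h1 h2) (meagre_of_not α (by linarith) hn))

end Pool.Agent.Q93.CB
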